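import Pool.Agent.Zk52.MB3.SQ0

/-! Weights for a modulus of continuity which fails Osgood's condition -/

set_option autoImplicit false

open MeasureTheory Set Filter Topology

namespace Pool.Agent.Zk52.MB3

section

variable (om : ℝ → ℝ) (pos : ∀ r, 0 < r → 0 < om r) (mono : ∀ r s, 0 < r → r ≤ s → om r ≤ om s)
  (anti : ∀ r s, 0 < r → r ≤ s → om s / s ≤ om r / r)
  (int : IntegrableOn (fun r => 1 / om r) (Ioc 0 1))

/-- `2^{-n} / om (2^{-n})` -/
noncomputable def hh (n : ℕ) : ℝ := (1 / 2 : ℝ) ^ n / om ((1 / 2 : ℝ) ^ n)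

include pos in
theorem hh_pos (n : ℕ) : 0 < hh om n := by
  have := pos ((1 / 2 : ℝ) ^ n) (by positivity)
  unfold hh
  positivity

include pos anti in
theorem hh_anti (n : ℕ) : hh om (n + 1) ≤ hh om n := by
  have h1 := pos ((1 / 2 : ℝ) ^ n) (by positivity)
  have h2 := pos ((1 / 2 : ℝ) ^ (n + 1)) (by positivity)
  have h3 := anti ((1 / 2 : ℝ) ^ (n + 1)) ((1 / 2 : ℝ) ^ n) (by positivity)
    (pow_le_pow_of_le_one (by norm_num) (by norm_num) (by omega))
  unfold hh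
  rw [div_le_div_iff₀ (by positivity) (by positivity)] at h3 ⊢
  linarith

include pos mono int in
theorem sum_hh_le (n : ℕ) : ∑ j ∈ Finset.range n, hh om j ≤
    2 * ∫ x in Ioc ((1 / 2 : ℝ) ^ n) 1, 1 / om x := by
  induction n with
  | zero => simp
  | succ n ih =>
    have hle : (1 / 2 : ℝ) ^ (n + 1) ≤ (1 / 2 : ℝ) ^ n :=
      pow_le_pow_of_le_one (by norm_num) (by norm_num) (by omega)
    have hle1 : (1 / 2 : ℝ) ^ n ≤ 1 := pow_le_one₀ (by norm_num) (by norm_num)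
    have h1 : Ioc ((1 / 2 : ℝ) ^ (n + 1)) 1 =
        Ioc ((1 / 2 : ℝ) ^ (n + 1)) ((1 / 2 : ℝ) ^ n) ∪ Ioc ((1 / 2 : ℝ) ^ n) 1 :=
      (Ioc_union_Ioc_eq_Ioc hle hle1).symm
    have hI1 : IntegrableOn (fun r => 1 / om r) (Ioc ((1 / 2 : ℝ) ^ (n + 1)) ((1 / 2 : ℝ) ^ n)) :=
      int.mono_set (Ioc_subset_Ioc (by positivity) hle1)
    have hI2 : IntegrableOn (fun r => 1 / om r) (Ioc ((1 / 2 : ℝ) ^ n) 1) :=
      int.mono_set (Ioc_subset_Ioc (by positivity) le_rfl)
    have hdisj : Disjoint (Ioc ((1 / 2 : ℝ) ^ (n + 1)) ((1 / 2 : ℝ) ^ n))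
        (Ioc ((1 / 2 : ℝ) ^ n) 1) := by
      rw [Set.disjoint_left]
      intro x hx hx'
      exact absurd hx'.1 (not_lt.2 hx.2)
    rw [Finset.sum_range_succ, h1, setIntegral_union hdisj measurableSet_Ioc hI1 hI2]
    have h2 : (1 / 2 : ℝ) ^ (n + 1) * (1 / om ((1 / 2 : ℝ) ^ n)) ≤
        ∫ x in Ioc ((1 / 2 : ℝ) ^ (n + 1)) ((1 / 2 : ℝ) ^ n), 1 / om x := by
      have h3 : ∫ x in Ioc ((1 / 2 : ℝ) ^ (n + 1)) ((1 / 2 : ℝ) ^ n),
          (1 / om ((1 / 2 : ℝ) ^ n)) = (1 / 2 : ℝ) ^ (n + 1) * (1 / om ((1 / 2 : ℝ) ^ n)) := by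
        rw [setIntegral_const, smul_eq_mul, measureReal_def, Real.volume_Ioc,
          ENNReal.toReal_ofReal (by linarith)]
        congr 1
        rw [pow_succ]
        ring
      rw [← h3]
      refine setIntegral_mono_on (integrableOn_const (by simp)) hI1 measurableSet_Ioc ?_
      intro x hx
      have hx0 : 0 < x := lt_trans (by positivity) hx.1
      exact one_div_le_one_div_of_le (pos x hx0) (mono x _ hx0 hx.2)
    have h4 : hh om n = 2 * ((1 / 2 : ℝ) ^ (n + 1) * (1 / om ((1 / 2 : ℝ) ^ n))) := by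
      unfold hh
      rw [pow_succ]
      ring
    linarith

include pos mono int in
theorem hh_summable : Summable (hh om) := by
  refine summable_of_sum_range_le (c := 2 * ∫ x in Ioc (0 : ℝ) 1, 1 / om x)
    (fun n => (hh_pos om pos n).le) (fun n => ?_)
  refine (sum_hh_le om pos mono int n).trans ?_
  have h1 : ∫ x in Ioc ((1 / 2 : ℝ) ^ n) 1, 1 / om x ≤ ∫ x in Ioc (0 : ℝ) 1, 1 / om x := by
    refine setIntegral_mono_set int ?_ ?_
    · refine (ae_restrict_iff' measurableSet_Ioc).2 (Eventually.of_forall fun x hx => ?_)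
      have := pos x hx.1
      show 0 ≤ 1 / om x
      positivity
    · exact (Ioc_subset_Ioc (by positivity) le_rfl).eventuallyLE
  linarith

include pos mono anti in
theorem modulus : ∃ c > 0, ∀ r, 0 < r →
    ∑' n, wt (hh om) n * min ((1 / 2 : ℝ) ^ n) r ≤ c * om r := by
  have h0 := hh_pos om pos
  have ha := hh_anti om pos anti
  set C := ∑' m : ℕ, ((m : ℝ) + 1) ^ 2 * (1 / 2 : ℝ) ^ m with hC
  have hC0 : 0 ≤ C := tsum_nonneg fun m => by positivity
  refine ⟨1 + 2 * C, by positivity, ?_⟩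
  have key : ∀ r, 0 < r → r ≤ 1 →
      ∑' n, wt (hh om) n * min ((1 / 2 : ℝ) ^ n) r ≤ (1 + 2 * C) * om r := by
    intro r hr hr1
    obtain ⟨N, hN1, hN2⟩ := exists_nat_pow_near_of_lt_one hr hr1 (by norm_num : (0 : ℝ) < 1 / 2)
      (by norm_num)
    refine (tsum_min_le h0 ha N r hr).trans ?_
    have h1 := S_le h0 ha N
    have h2 := pos ((1 / 2 : ℝ) ^ N) (by positivity)
    have h3 : 1 / hh om N = om ((1 / 2 : ℝ) ^ N) / (1 / 2 : ℝ) ^ N := by
      unfold hh
      rw [one_div_div]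
    rw [h3] at h1
    have h4 := anti r ((1 / 2 : ℝ) ^ N) hr hN2
    have h5 : r * S (hh om) N ≤ om r := by
      have : S (hh om) N ≤ om r / r := h1.trans h4
      rw [le_div_iff₀ hr] at this
      linarith
    have h6 : S (hh om) N * (1 / 2 : ℝ) ^ N ≤ 2 * om r := by
      rw [le_div_iff₀ (by positivity)] at h1
      have h7 := anti ((1 / 2 : ℝ) ^ (N + 1)) ((1 / 2 : ℝ) ^ N) (by positivity)
        (pow_le_pow_of_le_one (by norm_num) (by norm_num) (by omega))
      rw [div_le_div_iff₀ (by positivity) (by positivity), pow_succ] at h7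
      have h8 := mono ((1 / 2 : ℝ) ^ (N + 1)) r (by positivity) hN1.le
      have h9 : (0 : ℝ) < (1 / 2 : ℝ) ^ N := by positivity
      have h10 : om ((1 / 2 : ℝ) ^ N) ≤ 2 * om ((1 / 2 : ℝ) ^ (N + 1)) := by
        rw [pow_succ]
        have h11 : (om ((1 / 2 : ℝ) ^ N) * (1 / 2)) * (1 / 2 : ℝ) ^ N ≤
            om ((1 / 2 : ℝ) ^ N * (1 / 2)) * (1 / 2 : ℝ) ^ N := by
          linarith
        have h12 := le_of_mul_le_mul_right h11 h9
        linarith
      linarith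
    have h13 : S (hh om) N * (1 / 2 : ℝ) ^ N * C ≤ 2 * om r * C := by gcongr
    linarith
  intro r hr
  rcases le_total r 1 with hr1 | hr1
  · exact key r hr hr1
  · have h1 := key 1 one_pos le_rfl
    have h2 := mono 1 r one_pos hr1
    have h3 : ∑' n, wt (hh om) n * min ((1 / 2 : ℝ) ^ n) r ≤
        ∑' n, wt (hh om) n * min ((1 / 2 : ℝ) ^ n) 1 := by
      refine Summable.tsum_le_tsum (fun n => ?_) (summable_min h0 ha r hr)
        (summable_min h0 ha 1 one_pos)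
      have h4 := wt_nonneg h0 ha n
      have h5 : (1 / 2 : ℝ) ^ n ≤ 1 := pow_le_one₀ (by norm_num) (by norm_num)
      rw [min_eq_left h5, min_eq_left (h5.trans hr1)]
    calc _ ≤ (1 + 2 * C) * om 1 := h3.trans h1
      _ ≤ (1 + 2 * C) * om r := by gcongr

include pos mono anti int in
theorem exists_weights' (K : ℝ) (n₀ : ℕ) :
    ∃ (a : ℕ → ℝ), (∀ n, 0 ≤ a n) ∧ (Summable fun n => a n * (1 / 2) ^ n) ∧
      (∃ c > 0, ∀ r, 0 < r → ∑' n, a n * min ((1 / 2) ^ n) r ≤ c * om r) ∧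
      (Summable fun n => 1 / ∑ k ∈ Finset.Icc n₀ n, a k) ∧
      ∃ k₀ ≥ n₀, ∀ n ≥ k₀, 0 < ∑ k ∈ Finset.Icc n₀ n, a k ∧
        4 * K * (a (n + 1) + a (n + 2)) ≤ ∑ k ∈ Finset.Icc n₀ n, a k := by
  have h0 := hh_pos om pos
  have ha := hh_anti om pos anti
  have hs := hh_summable om pos mono int
  obtain ⟨k₀, hk₀, hk⟩ := eventually_cond h0 ha hs K n₀
  refine ⟨wt (hh om), wt_nonneg h0 ha, summable_wt h0 ha, modulus om pos mono anti, ?_, k₀, hk₀,
    fun n hn => ⟨lt_of_lt_of_le (half_pos (S_pos h0 n)) (hk n hn).1, (hk n hn).2⟩⟩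
  rw [← summable_nat_add_iff k₀]
  refine Summable.of_nonneg_of_le (fun n => ?_) (fun n => ?_)
    (((summable_nat_add_iff k₀).2 (summable_inv h0 hs)).mul_left 2)
  · have h1 := (hk (n + k₀) (by omega)).1
    have h2 := half_pos (S_pos h0 (n + k₀))
    have : 0 < ∑ k ∈ Finset.Icc n₀ (n + k₀), wt (hh om) k := lt_of_lt_of_le h2 h1
    positivity
  · have h1 := (hk (n + k₀) (by omega)).1
    have h2 := half_pos (S_pos h0 (n + k₀))
    have h3 := one_div_le_one_div_of_le h2 h1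
    refine h3.trans (le_of_eq ?_)
    rw [one_div_div]
    ring

end

end Pool.Agent.Zk52.MB3
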