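import Pool.Agent.Zk27.MB.Cut3
import Pool.Agent.Zk52.MB3.SQ1

open MeasureTheory Set
open scoped ContDiff

namespace Pool.Agent.Zk27.MB

open Pool.Agent.H708R2.EulerSign

theorem exists_weights (om : ℝ → ℝ) (h : NonOsgood om) (K : ℝ) (n₀ : ℕ) : ∃ (a : ℕ → ℝ),
    (∀ n, 0 ≤ a n) ∧ (Summable fun n => a n * (1 / 2) ^ n) ∧
    (∃ c > 0, ∀ r, 0 < r → ∑' n, a n * min ((1 / 2) ^ n) r ≤ c * om r) ∧
    (Summable fun n => 1 / ∑ k ∈ Finset.Icc n₀ n, a k) ∧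
    ∃ k₀ ≥ n₀, ∀ n ≥ k₀, 0 < ∑ k ∈ Finset.Icc n₀ n, a k ∧
      4 * K * (a (n + 1) + a (n + 2)) ≤ ∑ k ∈ Finset.Icc n₀ n, a k :=
  Pool.Agent.Zk52.MB3.exists_weights' om h.pos h.mono h.anti h.int K n₀

end Pool.Agent.Zk27.MB
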