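import Mathlib

/-! Weights for a modulus of continuity which fails Osgood's condition -/

set_option autoImplicit false

open MeasureTheory Set Filter Topology

namespace Pool.Agent.Zk52.MB3

section

variable (h : ℕ → ℝ)

/-- `∑_{j ≤ n} (j + 1) h_j` -/
noncomputable def A (n : ℕ) : ℝ := ∑ j ∈ Finset.range (n + 1), ((j : ℝ) + 1) * h j

/-- `(n + 1)² / (2 A_n)` -/
noncomputable def S (n : ℕ) : ℝ := ((n : ℝ) + 1) ^ 2 / (2 * A h n)

/-- the differences of `S` -/
noncomputable def wt (n : ℕ) : ℝ := if n = 0 then S h 0 else S h n - S h (n - 1)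

theorem A_succ (n : ℕ) : A h (n + 1) = A h n + ((n : ℝ) + 2) * h (n + 1) := by
  unfold A
  rw [Finset.sum_range_succ _ (n + 1)]
  push_cast
  ring

variable {h} (h0 : ∀ n, 0 < h n) (ha : ∀ n, h (n + 1) ≤ h n)

include h0 in
theorem A_pos (n : ℕ) : 0 < A h n := by
  induction n with
  | zero => simp [A, h0]
  | succ n ih =>
    rw [A_succ]
    have := h0 (n + 1)
    positivity

include h0 in
theorem A_mono : Monotone (A h) := by
  refine monotone_nat_of_le_succ fun n => ?_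
  rw [A_succ]
  have := h0 (n + 1)
  have : 0 < ((n : ℝ) + 2) * h (n + 1) := by positivity
  linarith

include ha in
theorem A_ge (n : ℕ) : h n * (((n : ℝ) + 1) * ((n : ℝ) + 2) / 2) ≤ A h n := by
  induction n with
  | zero => simp [A]
  | succ n ih =>
    rw [A_succ]
    have h1 := ha n
    have h2 : h (n + 1) * (((n : ℝ) + 1) * ((n : ℝ) + 2) / 2) ≤
        h n * (((n : ℝ) + 1) * ((n : ℝ) + 2) / 2) := by gcongr
    push_cast
    nlinarith

include h0 in
theorem S_pos (n : ℕ) : 0 < S h n := by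
  have := A_pos h0 n
  unfold S
  positivity

include h0 ha in
theorem S_le (n : ℕ) : S h n ≤ 1 / h n := by
  have h1 := A_ge ha n
  have h2 := h0 n
  have h3 := A_pos h0 n
  unfold S
  rw [div_le_div_iff₀ (by positivity) h2]
  have h4 : h n * (((n : ℝ) + 1) * ((n : ℝ) + 1)) ≤ h n * (((n : ℝ) + 1) * ((n : ℝ) + 2)) := by
    gcongr
    linarith
  nlinarith

include h0 ha in
theorem S_mono_succ (n : ℕ) : S h n ≤ S h (n + 1) := by
  have h1 := A_ge ha n
  have h2 := h0 (n + 1)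
  have h3 := A_pos h0 n
  have h3' := A_pos h0 (n + 1)
  have h4 := ha n
  unfold S
  rw [div_le_div_iff₀ (by positivity) (by positivity), A_succ]
  push_cast
  have h5 : h (n + 1) * (((n : ℝ) + 1) * ((n : ℝ) + 2) / 2) ≤ A h n :=
    le_trans (by gcongr) h1
  have h6 : (2 * (n : ℝ) + 3) * (h (n + 1) * (((n : ℝ) + 1) * ((n : ℝ) + 2) / 2)) ≤
      (2 * (n : ℝ) + 3) * A h n := by gcongr
  have h7 : ((n : ℝ) + 1) ^ 2 * (((n : ℝ) + 2) * h (n + 1)) ≤
      (2 * (n : ℝ) + 3) * (h (n + 1) * (((n : ℝ) + 1) * ((n : ℝ) + 2) / 2)) := by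
    have h8 : 0 ≤ ((n : ℝ) + 1) * ((n : ℝ) + 2) * h (n + 1) := by positivity
    nlinarith
  nlinarith

include h0 ha in
theorem S_mono : Monotone (S h) := monotone_nat_of_le_succ (S_mono_succ h0 ha)

include h0 in
theorem S_add (N m : ℕ) : S h (N + m) ≤ (((N : ℝ) + m + 1) / ((N : ℝ) + 1)) ^ 2 * S h N := by
  have h1 := A_mono h0 (Nat.le_add_right N m)
  have h2 := A_pos h0 N
  have h3 := A_pos h0 (N + m)
  unfold S
  push_cast
  rw [div_pow, div_mul_div_comm]
  have h4 : ((N : ℝ) + m + 1) ^ 2 * ((N : ℝ) + 1) ^ 2 / (((N : ℝ) + 1) ^ 2 * (2 * A h N)) =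
      ((N : ℝ) + m + 1) ^ 2 / (2 * A h N) := by
    field_simp
  rw [h4]
  gcongr

include h0 in
theorem S_add' (N m : ℕ) : S h (N + m) ≤ ((m : ℝ) + 1) ^ 2 * S h N := by
  refine (S_add h0 N m).trans ?_
  have := S_pos h0 N
  have h1 : ((N : ℝ) + m + 1) / ((N : ℝ) + 1) ≤ (m : ℝ) + 1 := by
    rw [div_le_iff₀ (by positivity)]
    have : 0 ≤ (N : ℝ) * m := by positivity
    nlinarith
  gcongr

theorem sum_parts (n : ℕ) : ∑ j ∈ Finset.range (n + 1), A h j * (1 / ((j : ℝ) + 1) - 1 / ((j : ℝ) + 2))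
    + A h n / ((n : ℝ) + 2) = ∑ j ∈ Finset.range (n + 1), h j := by
  induction n with
  | zero =>
    simp [A]
    ring
  | succ n ih =>
    rw [Finset.sum_range_succ, Finset.sum_range_succ (fun j => h j) (n + 1), ← ih, A_succ]
    push_cast
    field_simp
    ring

include h0 in
theorem summable_inv (hs : Summable h) : Summable fun n => 1 / S h n := by
  refine summable_of_sum_range_le (c := 4 * ∑' n, h n) (fun n => ?_) (fun n => ?_)
  · have := S_pos h0 n
    positivity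
  · have h1 : ∀ j, 1 / S h j ≤ 4 * (A h j * (1 / ((j : ℝ) + 1) - 1 / ((j : ℝ) + 2))) := by
      intro j
      have h2 := A_pos h0 j
      have h3 : 1 / ((j : ℝ) + 1) - 1 / ((j : ℝ) + 2) = 1 / (((j : ℝ) + 1) * ((j : ℝ) + 2)) := by
        field_simp
        ring
      have h4 : (1 : ℝ) / S h j = 2 * A h j / ((j : ℝ) + 1) ^ 2 := by
        unfold S
        rw [one_div_div]
      rw [h3, h4, mul_one_div, ← mul_div_assoc, div_le_div_iff₀ (by positivity) (by positivity)]
      have h5 : 0 ≤ A h j * ((j : ℝ) + 1) * j := by positivity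
      nlinarith
    rcases n with _ | n
    · simp
      exact tsum_nonneg fun n => (h0 n).le
    · calc ∑ j ∈ Finset.range (n + 1), 1 / S h j ≤
          ∑ j ∈ Finset.range (n + 1), 4 * (A h j * (1 / ((j : ℝ) + 1) - 1 / ((j : ℝ) + 2))) :=
            Finset.sum_le_sum fun j _ => h1 j
        _ = 4 * ∑ j ∈ Finset.range (n + 1), A h j * (1 / ((j : ℝ) + 1) - 1 / ((j : ℝ) + 2)) := by
            rw [Finset.mul_sum]
        _ ≤ 4 * ∑ j ∈ Finset.range (n + 1), h j := by
            have h2 := sum_parts (h := h) n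
            have h3 : 0 ≤ A h n / ((n : ℝ) + 2) := by
              have := A_pos h0 n
              positivity
            linarith
        _ ≤ 4 * ∑' n, h n := by
            have := hs.sum_le_tsum (Finset.range (n + 1)) (fun j _ => (h0 j).le)
            linarith

include h0 in
theorem S_tendsto (hs : Summable h) : Tendsto (S h) atTop atTop := by
  have h1 := (summable_inv h0 hs).tendsto_atTop_zero
  have h2 : Tendsto (fun n => (1 / S h n)⁻¹) atTop atTop := by
    refine Tendsto.comp tendsto_inv_nhdsGT_zero (tendsto_nhdsWithin_iff.2 ⟨h1, ?_⟩)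
    exact Eventually.of_forall fun n => by
      have := S_pos h0 n
      simp only [mem_Ioi]
      positivity
  simpa using h2

include h0 ha in
theorem wt_nonneg (n : ℕ) : 0 ≤ wt h n := by
  unfold wt
  split_ifs with hn
  · exact (S_pos h0 0).le
  · obtain ⟨m, rfl⟩ := Nat.exists_eq_succ_of_ne_zero hn
    have := S_mono_succ h0 ha m
    simp only [Nat.succ_eq_add_one, Nat.add_sub_cancel]
    linarith

theorem sum_wt (n : ℕ) : ∑ k ∈ Finset.range (n + 1), wt h k = S h n := by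
  induction n with
  | zero => simp [wt]
  | succ n ih =>
    rw [Finset.sum_range_succ, ih]
    simp [wt]

include h0 in
theorem wt_le (n : ℕ) : wt h n ≤ S h n := by
  unfold wt
  split_ifs with hn
  · rw [hn]
  · have := S_pos h0 (n - 1)
    linarith

theorem sum_Icc (n₀ n : ℕ) (hn : n₀ ≤ n) : ∑ k ∈ Finset.Icc n₀ n, wt h k =
    S h n - ∑ k ∈ Finset.range n₀, wt h k := by
  rw [← sum_wt n, ← Finset.sum_range_add_sum_Ico (wt h) (by omega : n₀ ≤ n + 1)]
  have : Finset.Icc n₀ n = Finset.Ico n₀ (n + 1) := by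
    ext k
    simp [Nat.lt_succ_iff]
  rw [this]
  ring

theorem summable_sq : Summable fun m : ℕ => ((m : ℝ) + 1) ^ 2 * (1 / 2 : ℝ) ^ m := by
  have h1 : Summable fun m : ℕ => ((m : ℝ)) ^ 2 * (1 / 2 : ℝ) ^ m :=
    summable_pow_mul_geometric_of_norm_lt_one 2 (by norm_num)
  have h2 := ((summable_nat_add_iff 1).2 h1).mul_left 2
  refine h2.congr fun m => ?_
  push_cast
  rw [pow_succ (1 / 2 : ℝ) m]
  ring

include h0 ha in
theorem summable_wt : Summable fun n => wt h n * (1 / 2 : ℝ) ^ n := by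
  refine Summable.of_nonneg_of_le (fun n => ?_) (fun n => ?_) (summable_sq.mul_left (S h 0))
  · have := wt_nonneg h0 ha n
    positivity
  · have h1 := wt_le h0 n
    have h2 := S_add' h0 0 n
    rw [Nat.zero_add] at h2
    calc wt h n * (1 / 2 : ℝ) ^ n ≤ (((n : ℝ) + 1) ^ 2 * S h 0) * (1 / 2 : ℝ) ^ n := by
          gcongr
          exact h1.trans h2
      _ = S h 0 * (((n : ℝ) + 1) ^ 2 * (1 / 2 : ℝ) ^ n) := by ring

include h0 ha in
theorem summable_min (r : ℝ) (hr : 0 < r) : Summable fun n => wt h n * min ((1 / 2 : ℝ) ^ n) r := by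
  refine Summable.of_nonneg_of_le (fun n => ?_) (fun n => ?_) (summable_wt h0 ha)
  · have := wt_nonneg h0 ha n
    have : 0 < min ((1 / 2 : ℝ) ^ n) r := lt_min (by positivity) hr
    positivity
  · have := wt_nonneg h0 ha n
    gcongr
    exact min_le_left _ _

include h0 ha in
theorem tsum_min_le (N : ℕ) (r : ℝ) (hr : 0 < r) :
    ∑' n, wt h n * min ((1 / 2 : ℝ) ^ n) r ≤
      r * S h N + (S h N * (1 / 2 : ℝ) ^ N) * ∑' m : ℕ, ((m : ℝ) + 1) ^ 2 * (1 / 2 : ℝ) ^ m := by
  have hs := summable_min h0 ha r hr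
  rw [← hs.sum_add_tsum_nat_add N]
  refine add_le_add ?_ ?_
  · calc ∑ n ∈ Finset.range N, wt h n * min ((1 / 2 : ℝ) ^ n) r
        ≤ ∑ n ∈ Finset.range N, r * wt h n := by
          refine Finset.sum_le_sum fun n _ => ?_
          have h1 := wt_nonneg h0 ha n
          have h2 : min ((1 / 2 : ℝ) ^ n) r ≤ r := min_le_right _ _
          nlinarith
      _ ≤ ∑ n ∈ Finset.range (N + 1), r * wt h n := by
          rw [Finset.sum_range_succ]
          have h1 := wt_nonneg h0 ha N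
          have : 0 ≤ r * wt h N := by positivity
          linarith
      _ = r * S h N := by rw [← Finset.mul_sum, sum_wt]
  · rw [← tsum_mul_left]
    refine Summable.tsum_le_tsum (fun m => ?_) ((summable_nat_add_iff N).2 hs)
      (summable_sq.mul_left _)
    have h1 := wt_nonneg h0 ha (m + N)
    have h2 := wt_le h0 (m + N)
    have h3 := S_add' h0 N m
    rw [add_comm N m] at h3
    have h4 : min ((1 / 2 : ℝ) ^ (m + N)) r ≤ (1 / 2 : ℝ) ^ (m + N) := min_le_left _ _
    calc wt h (m + N) * min ((1 / 2 : ℝ) ^ (m + N)) r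
        ≤ (((m : ℝ) + 1) ^ 2 * S h N) * (1 / 2 : ℝ) ^ (m + N) := by
          have h5 : 0 < min ((1 / 2 : ℝ) ^ (m + N)) r := lt_min (by positivity) hr
          exact mul_le_mul (h2.trans h3) h4 h5.le (le_trans h1 (h2.trans h3))
      _ = S h N * (1 / 2 : ℝ) ^ N * (((m : ℝ) + 1) ^ 2 * (1 / 2 : ℝ) ^ m) := by
          rw [pow_add]
          ring

include h0 ha in
/-- the conditions at infinity -/
theorem eventually_cond (hs : Summable h) (K : ℝ) (n₀ : ℕ) :
    ∃ k₀ ≥ n₀, ∀ n ≥ k₀, S h n / 2 ≤ ∑ k ∈ Finset.Icc n₀ n, wt h k ∧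
      4 * K * (wt h (n + 1) + wt h (n + 2)) ≤ ∑ k ∈ Finset.Icc n₀ n, wt h k := by
  set c := ∑ k ∈ Finset.range n₀, wt h k with hc
  obtain ⟨k₁, hk₁⟩ := eventually_atTop.1 ((S_tendsto h0 hs).eventually_ge_atTop (2 * c))
  have h1 : Tendsto (fun n : ℕ => 4 * |K| * (((n : ℝ) + 3) ^ 2 / ((n : ℝ) + 1) ^ 2 - 1)) atTop
      (𝓝 (4 * |K| * (1 ^ 2 - 1))) := by
    have h2 : Tendsto (fun n : ℕ => ((n : ℝ) + 3) / ((n : ℝ) + 1)) atTop (𝓝 1) := by
      have h3 : Tendsto (fun n : ℕ => 1 + 2 / ((n : ℝ) + 1)) atTop (𝓝 (1 + 0)) := by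
        refine tendsto_const_nhds.add ?_
        exact tendsto_const_nhds.div_atTop (tendsto_atTop_add_const_right _ _
          tendsto_natCast_atTop_atTop)
      rw [add_zero] at h3
      refine h3.congr fun n => ?_
      have : (n : ℝ) + 1 ≠ 0 := by positivity
      field_simp
      ring
    have h4 := ((h2.pow 2).sub_const 1).const_mul (4 * |K|)
    refine h4.congr fun n => ?_
    rw [div_pow]
  have h1' : (4 * |K| * (1 ^ 2 - 1) : ℝ) < 1 / 2 := by norm_num
  obtain ⟨k₂, hk₂⟩ := eventually_atTop.1 (h1.eventually_lt_const h1')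
  refine ⟨max n₀ (max k₁ k₂), le_max_left _ _, fun n hn => ?_⟩
  have hn0 : n₀ ≤ n := (le_max_left _ _).trans hn
  have hn1 : k₁ ≤ n := ((le_max_left _ _).trans (le_max_right _ _)).trans hn
  have hn2 : k₂ ≤ n := ((le_max_right _ _).trans (le_max_right _ _)).trans hn
  have h5 := hk₁ n hn1
  have h6 := hk₂ n hn2
  have hS := S_pos h0 n
  have h7 : S h n / 2 ≤ ∑ k ∈ Finset.Icc n₀ n, wt h k := by
    rw [sum_Icc n₀ n hn0]
    linarith
  refine ⟨h7, le_trans ?_ h7⟩
  have h8 : wt h (n + 1) + wt h (n + 2) = S h (n + 2) - S h n := by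
    simp [wt]
  have h9 := S_add h0 n 2
  rw [h8]
  have h10 : S h (n + 2) - S h n ≤ S h n * (((n : ℝ) + 3) ^ 2 / ((n : ℝ) + 1) ^ 2 - 1) := by
    have : (((n : ℝ) + (2 : ℕ) + 1) / ((n : ℝ) + 1)) ^ 2 = ((n : ℝ) + 3) ^ 2 / ((n : ℝ) + 1) ^ 2 := by
      rw [div_pow]
      push_cast
      ring_nf
    rw [this] at h9
    linarith
  have h11 : 0 ≤ S h (n + 2) - S h n := by
    have := S_mono h0 ha (by omega : n ≤ n + 2)
    linarith
  calc 4 * K * (S h (n + 2) - S h n) ≤ 4 * |K| * (S h (n + 2) - S h n) := by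
        have := le_abs_self K
        gcongr
    _ ≤ 4 * |K| * (S h n * (((n : ℝ) + 3) ^ 2 / ((n : ℝ) + 1) ^ 2 - 1)) := by gcongr
    _ = (4 * |K| * (((n : ℝ) + 3) ^ 2 / ((n : ℝ) + 1) ^ 2 - 1)) * S h n := by ring
    _ ≤ (1 / 2) * S h n := by gcongr
    _ = S h n / 2 := by ring

end

end Pool.Agent.Zk52.MB3
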